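import Pool.Agent.Lib.MP_8c6d5c_co.Defs
import Pool.Agent.Lib.MP_8c6d5c_co.Proof

set_option autoImplicit false

namespace Pool.Agent.Results.MP_8c6d5c_co.PenroseDoubleRoot

open Pool.Agent.Lib.MP_8c6d5c_co
open Polynomial

/-- There is a connected binary matroid `M` (on 9 elements) whose Penrose polynomial is nonzero and
divisible by `(X - 1)^2`; in fact it equals `(X - 1)^2 (X - 2)^3`, and the multiplicity of the root
`1` is exactly `2`. -/
theorem result : ∃ M : BinaryMatroid (Fin 9),
    Connected M ∧ penrose M ≠ 0 ∧ (X - C 1) ^ 2 ∣ penrose M ∧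
      penrose M = (X - 1) ^ 2 * (X - 2) ^ 3 :=
  main_result

end Pool.Agent.Results.MP_8c6d5c_co.PenroseDoubleRoot
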